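import Pool.Agent.H21.POT.Pot

/-!
# The maximal body of a line system, for all data (K_POT for P5)

`pot2`: for a line system whose target is not full there is a body, a function of the exact point,
which is conserved along the lines, has a near covector, and contains the body of EVERY datum of
small price. The slow record `y` is any function of the sample.
-/

set_option autoImplicit false

namespace Pool.POT

open Finset Real Matrix
open Pool.Agent.H49.Ent Pool.Agent.H32.Dense Pool.STK Pool.FAD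
open Pool.SLO (tup tup_nonneg tup_isLaw)
open Pool.KS6 (ind ind_nonneg)
open Pool.QC (nfb)
open Pool.QC98 (selr Gc nfb_mono Cr Cr_nonneg)
open Pool.BFL (Pb)
open Pool.LBL (Ad)

variable {c : ℕ} {σ υ : Type}

theorem Ln.Ok.mono {Q : Ln c σ υ} {d δ e Γ R d' δ' e' Γ' R' : ℝ} (h : Q.Ok d δ e Γ R)
    (hd : d ≤ d') (hδ : δ ≤ δ') (he : e ≤ e') (hΓ : Γ ≤ Γ') (hR : R ≤ R') :
    Q.Ok d' δ' e' Γ' R' :=
  { h with
    h0 := h.h0.trans hd
    h2 := h.h2.trans hd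
    hF := h.hF.trans hδ
    e1 := h.e1.trans he
    e2 := h.e2.trans he
    ent := fun ω i j => (h.ent ω i j).trans hΓ
    inv := fun ω i j => (h.inv ω i j).trans hΓ
    tr := fun ω0 ω1 ω0' ω1' x0 x1 x0' x1' e1 e2 e3 i =>
      (h.tr ω0 ω1 ω0' ω1' x0 x1 x0' x1' e1 e2 e3 i).trans hR }

/-- **The maximal body, for all data.** -/
theorem pot_core2 {Q : Ln c σ υ} {d δ e Γ R C G L P0 : ℝ} {X K : ℕ} (hQ : Q.Ok d δ e Γ R)
    (hc : 0 < c) (hΓ : 1 ≤ Γ) (hR : 0 ≤ R) (hC : 1 ≤ C) (hL : 1 < L)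
    (hP1 : Pt c d δ e Γ R ≤ P0) (hP2 : |Csb c| ≤ P0)
    (hK : Lm c (Cs c Γ C K) + c * (X * Real.log 2) < K * G) :
    ∃ j < K, ∃ (Ap : σ × (υ × (Fin c → ℤ)) → Matrix (Fin c) (Fin c) ℝ) (D : Dt c σ υ),
      (∀ P, (Ap P).det ≠ 0 ∧ (∀ i j', |Ap P i j'| ≤ Cs c Γ C j) ∧
        ∀ i j, |(Ap P)⁻¹ i j| ≤ 2 ^ X) ∧
      D.Ok X (Cs c Γ C j) (law Q.p Q.pt) (7 ^ j * P0) ∧
      Ex D.p (fun ω => ind (Far L (Ap (D.pt ω)) (D.A ω) ∨ Far L (D.A ω) (Ap (D.pt ω)))) ≤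
        2 * (G / Real.log L) ∧
      Ex (tup Q.p Q.L 1) (fun w => ind (Far (c * (c * (L * L) * L)) (Ap (Q.pt (w 0)))
        (tb Γ (Q.M (w 0)) (Q.M (w 1)) (Ap (Q.pt (w 1)))))) ≤ 5 * (G / Real.log L) ∧
      ∀ (E : Dt c σ υ) (b : ℝ), b ≤ P0 → E.Ok X C (law Q.p Q.pt) b →
        Ex E.p (fun ω => ind (Far (c * (L * L)) (Ap (E.pt ω)) (E.A ω))) ≤
          3 * (G / Real.log L) := by
  have hP0 : 0 ≤ P0 := (abs_nonneg _).trans hP2
  obtain ⟨hd, hδ, he⟩ := hQ.nn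
  have hPt := Pt_ge (δ := δ) hc hΓ hR hd he
  obtain ⟨j, hj, D, hD, hmax⟩ := exists_max (X := X) (μ := law Q.p Q.pt) hQ.law Q.s Q.y Q.n
    (fun _ => rfl) (fun j => 7 ^ j * P0) (Cs c Γ C) (Cs_ge hc hΓ hC 0)
    (by simpa using hP0) K G hK
  have h7 : P0 ≤ 7 ^ j * P0 := le_mul_of_one_le_left hP0 (one_le_pow₀ (by norm_num))
  have e7 : (7 : ℝ) ^ (j + 1) * P0 = 7 * (7 ^ j * P0) := by ring
  obtain ⟨Ap, h1, h2, h3⟩ := apt_ex (C' := Cs c Γ C (j + 1)) (a' := 7 ^ (j + 1) * P0) (G := G)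
    (L := L) (Cs_ge hc hΓ hC j) (Cs_mono hc hΓ hC (Nat.le_succ j)) hD hmax
    (by rw [e7]; linarith) hL
  refine ⟨j, hj, Ap, D, h1, hD, h2, ?_, ?_⟩
  · exact Ln.cons hQ hD hc hΓ hR (by linarith) (Cs_succ c Γ C j).le h2 h3
      (by rw [e7]; linarith)
  · intro E b hb hE
    refine h3 E b (hE.mono' ?_ le_rfl) (by rw [e7]; linarith)
    have hG := one_le_Gm hc hΓ
    unfold Cs
    exact le_mul_of_one_le_left (by linarith) (one_le_pow₀ (one_le_pow₀ hG))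

/-- The near point of a datum is as in the line system. -/
theorem nf_ln {Q : Ln c σ υ} {D : Dt c σ υ} {X B : ℕ} {n₀ : Fin c} {C a : ℝ} (hp : IsLaw Q.p)
    (hD : D.Ok X C (law Q.p Q.pt) a) :
    nfb D.p D.n (fun ω => (D.y ω, (D.s ω, D.Z ω))) n₀ X B ≤
      nfb Q.p Q.n (fun ω => (Q.y ω, Q.s ω)) n₀ X B := by
  refine (nfb_mono hD.law.nonneg D.n (Y := fun ω => (D.y ω, D.s ω)) ?_ n₀ X B).trans
    (le_of_eq ?_)
  · intro ω ω' _ _ e
    simp only [Prod.mk.injEq] at e ⊢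
    exact ⟨e.1, e.2.1⟩
  · unfold Pool.QC.nfb
    refine Finset.sum_congr rfl fun t _ => ?_
    exact CH_law_eq hD.law.nonneg hp.nonneg (Z₁ := D.pt) (Z₂ := Q.pt) hD.mar
      (fun P => P.2.2 n₀ / 2 ^ (X - (t + 1) * X / B))
      (fun P => (P.2.2 n₀ / 2 ^ (X - t * X / B),
        ((fun i : {i : Fin c // i ≠ n₀} => P.2.2 i / 2 ^ (X - (t + 1) * X / B)),
          (P.2.1, P.1))))

set_option maxHeartbeats 4000000 in
/-- **The conserved body which contains all data.** -/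
theorem pot2 (c : ℕ) (n₀ : Fin c) (hn₀ : ∀ i, i ≤ n₀) (c0 x1 zz η : ℝ) (B : ℕ) (hx1 : 0 ≤ x1)
    (hzz : 0 < zz) (hη : 0 < η) (hB : 0 < B) :
    ∃ io : ℝ, 0 < io ∧ ∃ X0 : ℕ, ∀ X : ℕ, X0 ≤ X → ∀ {σ υ : Type} (Q : Ln c σ υ),
    Q.Ok (io * X) (io * X) (io * X) (2 ^ (io * X)) (2 ^ (io * X)) →
    nfb Q.p Q.n (fun ω => (Q.y ω, Q.s ω)) n₀ X B ≤ (1 - c0) * X * Real.log 2 →
    ∃ A : σ × (υ × (Fin c → ℤ)) → Matrix (Fin c) (Fin c) ℝ,
      (∀ P, (A P).det ≠ 0 ∧ (∀ i j, |A P i j| ≤ 2 ^ (zz * X)) ∧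
        ∀ i j, |(A P)⁻¹ i j| ≤ 2 ^ X) ∧
      c0 - x1 - η ≤ Pb Q.p (fun ω => ∃ m, Ad (A (Q.pt ω)) n₀
        ((2 : ℝ) ^ ((X : ℝ) / B)) (2 ^ (-((x1 - zz) * X))) m) ∧
      Pb (tup Q.p Q.L 1) (fun w => ¬ ∀ i j, |((A (Q.pt (w 0)))⁻¹ *
          (Q.M (w 0) * (Q.M (w 1))⁻¹ * A (Q.pt (w 1)))) i j| ≤ 2 ^ (zz * X)) ≤ η ∧
      ∀ E : Dt c σ υ, E.Ok X (2 ^ (io * X)) (law Q.p Q.pt) (io * X) →
        Pb E.p (fun ω => Far (2 ^ (zz * X)) (A (E.pt ω)) (E.A ω)) ≤ η := by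
  have hc : 0 < c := lt_of_le_of_lt (Nat.zero_le _) n₀.2
  have hc1 : (1 : ℝ) ≤ c := by exact_mod_cast hc
  have hl : 0 < Real.log 2 := Real.log_pos (by norm_num)
  have hl1 : Real.log 2 ≤ 1 := by
    have := Real.log_two_lt_d9
    linarith
  have hBr : (1 : ℝ) ≤ B := by exact_mod_cast hB
  have hlc : 0 ≤ Real.log c := Real.log_nonneg hc1
  -- the constants
  obtain ⟨x', hx'⟩ : ∃ x', x' = η * (zz / 4) * Real.log 2 / 5 := ⟨_, rfl⟩
  have hx'0 : 0 < x' := by rw [hx']; positivity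
  obtain ⟨K, hK⟩ := exists_nat_ge ((c * Real.log 2 + 1) / x')
  rw [div_le_iff₀ hx'0] at hK
  obtain ⟨ε, hε⟩ : ∃ ε, ε = η * Real.log 2 / (8 * B * 7 ^ K) := ⟨_, rfl⟩
  have hε0 : 0 < ε := by rw [hε]; positivity
  have hK0 : (0 : ℝ) ≤ K := Nat.cast_nonneg K
  obtain ⟨io, hio, e2, e3, e4⟩ : ∃ io : ℝ, 0 < io ∧
      io * (7 + 6 * c) ≤ ε ∧ io * (32 * c * (K + 1)) ≤ 1 ∧ io * (16 * (K + 1)) ≤ zz := by
    refine ⟨min (ε / (7 + 6 * c)) (min (1 / (32 * c * (K + 1)))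
      (zz / (16 * (K + 1)))), ?_, ?_, ?_, ?_⟩
    · exact lt_min (by positivity) (lt_min (by positivity) (by positivity))
    · rw [← le_div_iff₀ (by positivity)]
      exact min_le_left _ _
    · rw [← le_div_iff₀ (by positivity)]
      exact (min_le_right _ _).trans (min_le_left _ _)
    · rw [← le_div_iff₀ (by positivity)]
      exact (min_le_right _ _).trans (min_le_right _ _)
  refine ⟨io, hio, ?_⟩
  obtain ⟨X2, h2⟩ := ex_ge (a := zz / 4 * Real.log 2) (b := Real.log ((c : ℝ) ^ 2))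
    (by positivity)
  obtain ⟨X3, h3⟩ := ex_ge (a := ε) (b := 6 * c * (Real.log c + 3) + |Csb c|) (by positivity)
  obtain ⟨X4, h4⟩ := ex_ge (a := η / 4 * Real.log 2) (b := B * Cr c) (by positivity)
  obtain ⟨X5, h5⟩ := ex_ge (a := (1 : ℝ) / 2) (b := Real.log (Nat.factorial c) +
    c * ((K + 1) * (4 * Real.log c)) + 1) (by norm_num)
  obtain ⟨X6, h6⟩ := ex_ge (a := zz / 2 * Real.log 2)
    (b := (K + 1) * (4 * Real.log c)) (by positivity)
  refine ⟨max 1 (max X2 (max X3 (max X4 (max X5 X6)))), ?_⟩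
  intro X hX σ υ Q hQ' hnf
  have hX1 : 1 ≤ X := (le_max_left _ _).trans hX
  have hXX' := (le_max_right _ _).trans hX
  have h2 := h2 X ((le_max_left _ _).trans hXX')
  have hXX'' := (le_max_right _ _).trans hXX'
  have h3 := h3 X ((le_max_left _ _).trans hXX'')
  have hXX3 := (le_max_right _ _).trans hXX''
  have h4 := h4 X ((le_max_left _ _).trans hXX3)
  have hXX4 := (le_max_right _ _).trans hXX3
  have h5 := h5 X ((le_max_left _ _).trans hXX4)
  have h6 := h6 X ((le_max_right _ _).trans hXX4)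
  have hXr : (1 : ℝ) ≤ X := by exact_mod_cast hX1
  have hX0 : (0 : ℝ) < X := by linarith
  -- the charts
  obtain ⟨Γ, hΓe⟩ : ∃ Γ : ℝ, Γ = 2 ^ (io * X) := ⟨_, rfl⟩
  rw [← hΓe] at hQ'
  rw [← hΓe]
  have hΓ : 1 ≤ Γ := by
    rw [hΓe]
    exact Real.one_le_rpow (by norm_num) (by positivity)
  have hlΓ : Real.log Γ = io * X * Real.log 2 := by
    rw [hΓe, Real.log_rpow (by norm_num)]
  have hel : el c Γ ≤ Real.log c + 3 + io * X := by
    unfold el
    rw [hlΓ]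
    nlinarith [mul_pos hio hX0]
  have hel3 := el_ge hc hΓ
  have hioX : 0 < io * X := mul_pos hio hX0
  have hQ : Q.Ok (io * X) (io * X) (io * X) Γ (2 * Γ) :=
    hQ'.mono le_rfl le_rfl le_rfl le_rfl (by linarith)
  -- the prices
  obtain ⟨P0, hP0⟩ : ∃ P0, P0 = io * X + Pt c (io * X) (io * X) (io * X) Γ (2 * Γ) + |Csb c| :=
    ⟨_, rfl⟩
  have hPt0 : 0 ≤ Pt c (io * X) (io * X) (io * X) Γ (2 * Γ) := by
    have := Pt_ge (δ := io * X) hc hΓ (R := 2 * Γ) (by linarith) hioX.le hioX.le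
    linarith
  have hab := abs_nonneg (Csb c)
  have hεX : 0 ≤ ε * X := by positivity
  have hP0' : P0 ≤ 2 * (ε * X) := by
    have k1 := Pt_le (d := io * X) (δ := io * X) (e := io * X) hc hΓ
    have k2 : (c : ℝ) * el c Γ ≤ c * (Real.log c + 3 + io * X) :=
      mul_le_mul_of_nonneg_left hel (by linarith)
    have k3 := mul_le_mul_of_nonneg_right e2 hX0.le
    rw [hP0]
    nlinarith
  have hP00 : 0 ≤ P0 := by rw [hP0]; positivity
  -- the potential
  obtain ⟨L, hLe⟩ : ∃ L : ℝ, L = 2 ^ (zz / 4 * X) := ⟨_, rfl⟩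
  have hL1 : 1 < L := by
    rw [hLe]
    exact Real.one_lt_rpow (by norm_num) (by positivity)
  have hlL : Real.log L = zz / 4 * X * Real.log 2 := by
    rw [hLe, Real.log_rpow (by norm_num)]
  have hL4 : L ^ 4 = 2 ^ (zz * X) := by
    rw [hLe, ← Real.rpow_natCast, ← Real.rpow_mul (by norm_num)]
    congr 1
    push_cast
    ring
  have hc2L : (c : ℝ) ^ 2 ≤ L := by
    have k1 : 0 < (c : ℝ) ^ 2 := by positivity
    rw [← Real.log_le_log_iff k1 (by linarith), hlL]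
    linarith
  have hc2 : (c : ℝ) ≤ (c : ℝ) ^ 2 := by nlinarith
  obtain ⟨G, hGe⟩ : ∃ G, G = x' * X := ⟨_, rfl⟩
  have hGL : G / Real.log L = η / 5 := by
    rw [hGe, hlL, hx']
    field_simp
  have hKG : Lm c (Cs c Γ Γ K) + c * (X * Real.log 2) < K * G := by
    rw [Lm_le hc hΓ hΓ K, hlΓ, hGe]
    have k1 : (c : ℝ) * (io * X * Real.log 2 + (K + 1) * (4 * (io * X * Real.log 2))) ≤
        X / 4 := by
      have k2 := mul_le_mul_of_nonneg_right e3 hX0.le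
      have k3 : 0 ≤ io * c * (K + 1) * X := by positivity
      have k4 : io * c * X ≤ io * c * (K + 1) * X := by
        have : 0 ≤ io * c * K * X := by positivity
        nlinarith
      have k5 : (c : ℝ) * (io * X * Real.log 2 + (K + 1) * (4 * (io * X * Real.log 2))) =
        (io * c * X + 4 * (io * c * (K + 1) * X)) * Real.log 2 := by ring
      rw [k5]
      have k6 : (io * c * X + 4 * (io * c * (K + 1) * X)) * Real.log 2 ≤
        (io * c * X + 4 * (io * c * (K + 1) * X)) * 1 :=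
        mul_le_mul_of_nonneg_left hl1 (by positivity)
      linarith
    have k4 := mul_le_mul_of_nonneg_right hK hX0.le
    nlinarith
  obtain ⟨j, hj, Ap, D, f1, hD, f2, f3, f4⟩ := pot_core2 hQ hc hΓ (by linarith) hΓ hL1 (P0 := P0)
    (by rw [hP0]; linarith) (by rw [hP0]; linarith) hKG
  rw [hGL] at f2 f3 f4
  have hent : Cs c Γ Γ j ≤ 2 ^ (zz * X) := by
    refine (Cs_mono hc hΓ hΓ hj.le).trans ?_
    have k0 := Cs_ge hc hΓ hΓ K
    rw [← Real.log_le_log_iff (by linarith) (by positivity), log_Cs hc hΓ hΓ K, hlΓ,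
      Real.log_rpow (by norm_num)]
    have k2 := mul_le_mul_of_nonneg_right e4 (show 0 ≤ X * Real.log 2 by positivity)
    have k3 : 0 ≤ io * X * Real.log 2 * K := by positivity
    nlinarith
  have hG1 := one_le_Gm hc hΓ
  refine ⟨Ap, fun P => ⟨(f1 P).1, fun i j => ((f1 P).2.1 i j).trans hent, (f1 P).2.2⟩,
    ?_, ?_, ?_⟩
  · -- the covector
    have k1 := selr hD.law D.n (fun ω => (D.y ω, (D.s ω, D.Z ω))) D.A (by
      intro ω ω' x x' e
      exact hD.dZ ω ω' x x' (Prod.ext_iff.mp e).2) hD.det (by omega) hB hD.inv hD.fu n₀ hx1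
      (c0 := c0) ((nf_ln hQ.law hD).trans hnf)
    have k2 : B * (7 ^ j * P0 + Cr c) / (X * Real.log 2) ≤ η / 2 := by
      rw [div_le_iff₀ (by positivity)]
      have k3 : (7 : ℝ) ^ j * P0 ≤ 7 ^ K * (2 * (ε * X)) := by
        have k4 : (7 : ℝ) ^ j ≤ 7 ^ K := pow_le_pow_right₀ (by norm_num) hj.le
        exact mul_le_mul k4 hP0' hP00 (by positivity)
      have k6 : (B : ℝ) * (7 ^ K * (2 * (ε * X))) = η / 4 * Real.log 2 * X := by
        rw [hε]
        field_simp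
        ring
      have k7 : (B : ℝ) * (7 ^ j * P0) ≤ B * (7 ^ K * (2 * (ε * X))) :=
        mul_le_mul_of_nonneg_left k3 (by linarith)
      linarith
    have k3 := cv_out (p := D.p) (p' := Q.p) (Z := D.pt) (Z' := Q.pt)
      (Ap := Ap) hD.law.nonneg hQ.law.nonneg hD.mar hn₀ hD.det (L := L)
      (Δ := 2 ^ (-((x1 - zz) * X))) rfl (by
        have k5 : (2 : ℝ) ^ (-((x1 - zz) * X)) = 2 ^ (-(x1 * X)) * L ^ 4 := by
          rw [hL4, ← Real.rpow_add (by norm_num)]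
          congr 1
          ring
        rw [k5]
        have k6 : 0 < (2 : ℝ) ^ (-(x1 * X)) := by positivity
        have k7 : (c : ℝ) * L ≤ L ^ 4 := by
          have k8 : (c : ℝ) ≤ L := hc2.trans hc2L
          have k9 : L * L ≤ L ^ 4 := by
            have : (1 : ℝ) ≤ L ^ 2 := one_le_pow₀ hL1.le
            nlinarith
          nlinarith
        nlinarith) k1 f2
    refine le_trans ?_ k3
    linarith
  · -- the transport
    refine pb_of_far (fun w => tup_nonneg hQ.law.nonneg Q.L 1 w) (fun w hf => ?_)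
      (le_trans f3 (by linarith))
    intro i j
    refine tr_pt hG1 hf ?_ i j
    rw [← hL4]
    have : 0 ≤ L ^ 3 := by positivity
    nlinarith
  · -- the data
    intro E hE
    have k1 := f4 E (io * X) (by rw [hP0]; linarith) hE
    rw [Pb_eq_Ex]
    refine le_trans (Ex_mono hE.law.nonneg fun ω _ => ind_mono fun hf => ?_)
      (k1.trans (by linarith))
    by_contra hcon
    rw [not_far] at hcon
    obtain ⟨i, j, hij⟩ := hf
    have k2 := hcon i j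
    have k3 : (c : ℝ) * (L * L) ≤ L ^ 4 := by
      have k8 : (c : ℝ) ≤ L := hc2.trans hc2L
      have k9 : (1 : ℝ) ≤ L := hL1.le
      have k10 : (c : ℝ) * (L * L) ≤ L * (L * L) :=
        mul_le_mul_of_nonneg_right k8 (by positivity)
      have k11 : L * (L * L) ≤ L ^ 4 := by
        have : 0 ≤ L ^ 3 := by positivity
        nlinarith
      linarith
    rw [hL4] at k3
    linarith

end Pool.POT
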