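import Pool.Agent.H21.POT.Pot

/-!
# Data with a conditional price (K_POT for P5)

`Dt.Okc`: as `Dt.Ok`, but the datum may carry information about the slow record `y`: only
the information about `n`, given `(y, s)`, is bounded.
-/

set_option autoImplicit false

namespace Pool.POT

open Finset Real
open Pool.Agent.H49.Ent Pool.Agent.H32.Dense Pool.STK Pool.FAD
open Pool.KS6 (ind ind_nonneg)

variable {c : ℕ} {σ υ : Type}

/-- The hypotheses with the conditional price. -/
structure Dt.Okc (D : Dt c σ υ) (X : ℕ) (C : ℝ) (μ : σ × (υ × (Fin c → ℤ)) → ℝ) (a : ℝ) :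
    Prop where
  law : IsLaw D.p
  mar : ∀ P, Pool.Agent.H49.Ent.law D.p D.pt P = μ P
  det : ∀ ω, (D.A ω).det ≠ 0
  ent : ∀ ω i j, |D.A ω i j| ≤ C
  inv : ∀ ω i j, |(D.A ω)⁻¹ i j| ≤ 2 ^ X
  dZ : Det D.p (fun ω => (D.s ω, D.Z ω)) D.A
  fr : MI D.p D.n D.Z (fun ω => (D.y ω, D.s ω)) ≤ a
  fu : DF D.p (fun _ => Tx c X) D.A (fun ω => xv X (D.n ω)) (fun ω => (D.y ω, (D.s ω, D.Z ω))) ≤ a

theorem Dt.Okc.mono {D : Dt c σ υ} {X : ℕ} {C : ℝ} {μ : σ × (υ × (Fin c → ℤ)) → ℝ} {a b : ℝ}
    (h : D.Okc X C μ a) (hab : a ≤ b) : D.Okc X C μ b :=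
  { h with fr := h.fr.trans hab, fu := h.fu.trans hab }

theorem Dt.Okc.mono' {D : Dt c σ υ} {X : ℕ} {C C' : ℝ} {μ : σ × (υ × (Fin c → ℤ)) → ℝ} {a b : ℝ}
    (h : D.Okc X C μ a) (hC : C ≤ C') (hab : a ≤ b) : D.Okc X C' μ b :=
  { h with ent := fun ω i j => (h.ent ω i j).trans hC, fr := h.fr.trans hab, fu := h.fu.trans hab }

/-- The unconditional price is larger. -/
theorem Dt.Ok.okc {D : Dt c σ υ} {X : ℕ} {C : ℝ} {μ : σ × (υ × (Fin c → ℤ)) → ℝ} {a : ℝ}
    (h : D.Ok X C μ a) : D.Okc X C μ a :=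
  { law := h.law
    mar := h.mar
    det := h.det
    ent := h.ent
    inv := h.inv
    dZ := h.dZ
    fr := by
      refine le_trans (MI_data h.law.nonneg ?_ ?_) h.fr <;>
      · intro ω ω' _ _ e
        simp only [Prod.mk.injEq] at e ⊢
        tauto
    fu := h.fu }

/-- The sum of two data. -/
theorem Dt.add_okc {D E : Dt c σ υ} {X : ℕ} {C : ℝ} {μ : σ × (υ × (Fin c → ℤ)) → ℝ} {a b : ℝ}
    (hC : 1 ≤ C) (hD : D.Okc X C μ a) (hE : E.Okc X C μ b) :
    (D.add E X).Okc X C μ (2 * (a + b) + |Csb c|) := by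
  have hm : ∀ P, law D.p D.pt P = law E.p E.pt P := fun P => (hD.mar P).trans (hE.mar P).symm
  have h0 : ∀ w, 0 ≤ glue D.p E.p D.pt E.pt w := glue_nonneg hD.law.nonneg hE.law.nonneg
  have i1 := im_fst (p₂ := E.p) hD.law.nonneg hm
  have i2 := im_snd (p₁ := D.p) hE.law.nonneg hm
  have heq : ∀ w, 0 < glue D.p E.p D.pt E.pt w → D.pt w.1 = E.pt w.2 := fun w hw =>
    ((glue_pos_iff hD.law.nonneg hE.law.nonneg w).1 hw).2.2
  have ha : 0 ≤ a := (MI_nonneg hD.law.nonneg _ _ _).trans hD.fr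
  have hb : 0 ≤ b := (MI_nonneg hE.law.nonneg _ _ _).trans hE.fr
  -- the price of each part
  have m1 : MI (glue D.p E.p D.pt E.pt) (fun w => D.n w.1) (fun w => D.Z w.1)
      (fun w => (D.y w.1, D.s w.1)) ≤ a := by
    rw [i1.MI D.n D.Z (fun ω => (D.y ω, D.s ω))]
    exact hD.fr
  have m2 : MI (glue D.p E.p D.pt E.pt) (fun w => D.n w.1) (fun w => E.Z w.2)
      (fun w => (D.y w.1, D.s w.1)) ≤ b := by
    have e := i2.MI E.n E.Z (fun ω => (E.y ω, E.s ω))
    have e2 : MI (glue D.p E.p D.pt E.pt) (fun w => D.n w.1) (fun w => E.Z w.2)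
        (fun w => (D.y w.1, D.s w.1)) = MI (glue D.p E.p D.pt E.pt) (fun w => E.n w.2)
        (fun w => E.Z w.2) (fun w => (E.y w.2, E.s w.2)) := by
      refine MI_congr h0 ?_ ?_ ?_ ?_ ?_ ?_ <;>
      · intro w w' x x' h
        have k1 := heq w x
        have k2 := heq w' x'
        simp only [Dt.pt, Prod.mk.injEq] at k1 k2 h ⊢
        simp only [k1, k2] at h ⊢
        tauto
    rw [e2, e]
    exact hE.fr
  -- both together
  have ci := glue_ci hD.law.nonneg hE.law.nonneg hm D.Z E.Z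
  have m3 : MI (glue D.p E.p D.pt E.pt) (fun w => D.n w.1) (fun w => E.Z w.2)
      (fun w => (D.Z w.1, (D.y w.1, D.s w.1))) ≤ b := by
    have e1 := MI_chain_left h0 (fun w => D.Z w.1) (fun w => D.n w.1)
      (fun w => E.Z w.2) (fun w => (D.y w.1, D.s w.1))
    have e2 := MI_chain_left h0 (fun w => D.n w.1) (fun w => D.Z w.1)
      (fun w => E.Z w.2) (fun w => (D.y w.1, D.s w.1))
    have e3 : MI (glue D.p E.p D.pt E.pt) (fun w => (D.Z w.1, D.n w.1))
        (fun w => E.Z w.2) (fun w => (D.y w.1, D.s w.1)) = MI (glue D.p E.p D.pt E.pt)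
        (fun w => (D.n w.1, D.Z w.1)) (fun w => E.Z w.2) (fun w => (D.y w.1, D.s w.1)) := by
      refine MI_congr h0 ?_ ?_ ?_ ?_ ?_ ?_ <;>
      · intro w w' x x' h
        simp only [Prod.mk.injEq] at h ⊢
        tauto
    have e4 : MI (glue D.p E.p D.pt E.pt) (fun w => D.Z w.1) (fun w => E.Z w.2)
        (fun w => (D.n w.1, (D.y w.1, D.s w.1))) = 0 := by
      rw [← ci]
      refine MI_congr h0 ?_ ?_ ?_ ?_ ?_ ?_ <;>
      · intro w w' x x' h
        simp only [Dt.pt, Prod.mk.injEq] at h ⊢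
        tauto
    have e5 := MI_nonneg h0 (fun w => D.Z w.1) (fun w => E.Z w.2) (fun w => (D.y w.1, D.s w.1))
    linarith
  refine ⟨⟨h0, ?_⟩, ?_, fun w => sb_det _ _ _, fun w => sb_entry X hC (hD.ent _) (hE.ent _),
    fun w => sb_inv _ _ _, ?_, ?_, ?_⟩
  · exact (sum_glue hD.law.nonneg hm).trans hD.law.sum_one
  · intro P
    exact (i1.law D.pt P).trans (hD.mar P)
  · intro w w' x x' h
    have g1 := heq w x
    have g2 := heq w' x'
    have h' : (D.s w.1, (D.Z w.1, E.Z w.2)) = (D.s w'.1, (D.Z w'.1, E.Z w'.2)) := h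
    simp only [Prod.mk.injEq] at h'
    simp only [Dt.pt, Prod.mk.injEq] at g1 g2
    have k1 := i1.det h0 hD.dZ w w' x x' (Prod.ext h'.1 h'.2.1)
    have k2 := i2.det h0 hE.dZ w w' x x' (Prod.ext
      (g1.1.symm.trans (h'.1.trans g2.1)) h'.2.2)
    change sb X (D.A w.1) (E.A w.2) = sb X (D.A w'.1) (E.A w'.2)
    simp only at k1 k2
    rw [k1, k2]
  · have e := MI_chain h0 (fun w => D.n w.1) (fun w => D.Z w.1) (fun w => E.Z w.2)
      (fun w => (D.y w.1, D.s w.1))
    have hC0 := abs_nonneg (Csb c)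
    change MI (glue D.p E.p D.pt E.pt) (fun w => D.n w.1)
      (fun w => (D.Z w.1, E.Z w.2)) (fun w => (D.y w.1, D.s w.1)) ≤ _
    linarith
  · change DF (glue D.p E.p D.pt E.pt) (fun _ => Tx c X) (fun w => sb X (D.A w.1) (E.A w.2))
      (fun w => xv X (D.n w.1)) (fun w => (D.y w.1, (D.s w.1, (D.Z w.1, E.Z w.2)))) ≤ _
    have k1 := i1.det h0 hD.dZ
    have k2 := i2.det h0 hE.dZ
    have k2' : Det (glue D.p E.p D.pt E.pt) (fun w => (D.s w.1, E.Z w.2)) (fun w => E.A w.2) := by
      intro w w' x x' h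
      have g1 := heq w x
      have g2 := heq w' x'
      simp only [Dt.pt, Prod.mk.injEq] at g1 g2 h
      exact k2 w w' x x' (Prod.ext (g1.1.symm.trans (h.1.trans g2.1)) h.2)
    have f1 := DF_sb ⟨h0, (sum_glue hD.law.nonneg hm).trans hD.law.sum_one⟩ (X := X)
      (A := fun w : D.Ω × E.Ω => D.A w.1) (B := fun w => E.A w.2) (fun w => xv X (D.n w.1))
      (fun w => (D.y w.1, (D.s w.1, (D.Z w.1, E.Z w.2))))
      (fun w w' x x' h => k1 w w' x x' (by
        simp only [Prod.mk.injEq] at h ⊢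
        exact ⟨h.2.1, h.2.2.1⟩))
      (fun w w' x x' h => k2' w w' x x' (by
        simp only [Prod.mk.injEq] at h ⊢
        exact ⟨h.2.1, h.2.2.2⟩))
      (fun w => hD.det _) (fun w => hE.det _) (fun w => hD.inv _) (fun w => hE.inv _)
    -- the first body
    have f2 : DF (glue D.p E.p D.pt E.pt) (fun _ => Tx c X) (fun w => D.A w.1)
        (fun w => xv X (D.n w.1)) (fun w => (D.y w.1, (D.s w.1, (D.Z w.1, E.Z w.2)))) ≤ a + b := by
      have g1 := DF_more h0 X (A := fun w => D.A w.1) (n := fun w => D.n w.1)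
        (Z := fun w => (D.y w.1, (D.s w.1, D.Z w.1))) (fun w => E.Z w.2)
        (fun w w' x x' h => k1 w w' x x' (Prod.ext_iff.mp h).2)
      have g2 := DF_image i1 X D.A D.n (fun ω => (D.y ω, (D.s ω, D.Z ω)))
      have g3 := DF_less h0 X (A := fun w => D.A w.1) (n := fun w => D.n w.1)
        (Z := fun w => (D.y w.1, (D.s w.1, (D.Z w.1, E.Z w.2))))
        (Z' := fun w => (E.Z w.2, (D.y w.1, (D.s w.1, D.Z w.1)))) (by
          intro w w' _ _ h
          simp only [Prod.mk.injEq] at h ⊢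
          tauto)
      have g4 : MI (glue D.p E.p D.pt E.pt) (fun w => D.n w.1) (fun w => E.Z w.2)
          (fun w => (D.y w.1, (D.s w.1, D.Z w.1))) ≤ b := by
        refine le_trans ?_ m3
        have g5 : MI (glue D.p E.p D.pt E.pt) (fun w => D.n w.1) (fun w => E.Z w.2)
            (fun w => (D.y w.1, (D.s w.1, D.Z w.1))) = MI (glue D.p E.p D.pt E.pt)
            (fun w => D.n w.1) (fun w => E.Z w.2) (fun w => (D.y w.1, (D.Z w.1, (D.y w.1, D.s w.1)))) := by
          refine MI_congr h0 ?_ ?_ ?_ ?_ ?_ ?_ <;>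
          · intro w w' x x' h
            simp only [Prod.mk.injEq] at h ⊢
            tauto
        rw [g5]
        refine MI_data h0 ?_ ?_ <;>
        · intro w w' x x' h
          simp only [Prod.mk.injEq] at h ⊢
          tauto
      have g6 := hD.fu
      rw [g2] at g1
      linarith
    -- the second body
    have f3 : DF (glue D.p E.p D.pt E.pt) (fun _ => Tx c X) (fun w => E.A w.2)
        (fun w => xv X (D.n w.1)) (fun w => (D.y w.1, (D.s w.1, (D.Z w.1, E.Z w.2)))) ≤ a + b := by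
      have g0 : DF (glue D.p E.p D.pt E.pt) (fun _ => Tx c X) (fun w => E.A w.2)
          (fun w => xv X (D.n w.1)) (fun w => (D.y w.1, (D.s w.1, (D.Z w.1, E.Z w.2)))) ≤
          DF (glue D.p E.p D.pt E.pt) (fun _ => Tx c X) (fun w => E.A w.2)
          (fun w => xv X (E.n w.2)) (fun w => (D.Z w.1, (E.y w.2, (E.s w.2, E.Z w.2)))) := by
        rw [DF_xv, DF_xv]
        have g1 : CH (glue D.p E.p D.pt E.pt) (fun w => E.n w.2)
            (fun w => (cl (E.A w.2) (xv X (E.n w.2)), (D.Z w.1, (E.y w.2, (E.s w.2, E.Z w.2))))) ≤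
            CH (glue D.p E.p D.pt E.pt) (fun w => D.n w.1)
            (fun w => (cl (E.A w.2) (xv X (D.n w.1)),
              (D.y w.1, (D.s w.1, (D.Z w.1, E.Z w.2))))) := by
          refine (CH_congr h0 ?_ ?_ ?_ ?_).le <;>
          · intro w w' x x' h
            have k1 := heq w x
            have k2 := heq w' x'
            simp only [Dt.pt, Prod.mk.injEq] at k1 k2 h ⊢
            simp only [k1, k2] at h ⊢
            tauto
        linarith
      have g1 := DF_more h0 X (A := fun w => E.A w.2) (n := fun w => E.n w.2)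
        (Z := fun w => (E.y w.2, (E.s w.2, E.Z w.2))) (fun w => D.Z w.1)
        (fun w w' x x' h => k2 w w' x x' (Prod.ext_iff.mp h).2)
      have g2 := DF_image i2 X E.A E.n (fun ω => (E.y ω, (E.s ω, E.Z ω)))
      -- the same information bound, exchanged
      have m4 : MI (glue D.p E.p D.pt E.pt) (fun w => E.n w.2) (fun w => D.Z w.1)
          (fun w => (E.Z w.2, (E.y w.2, E.s w.2))) ≤ a := by
        have e1 := MI_chain_left h0 (fun w => E.Z w.2) (fun w => E.n w.2)
          (fun w => D.Z w.1) (fun w => (E.y w.2, E.s w.2))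
        have e2 := MI_chain_left h0 (fun w => E.n w.2) (fun w => E.Z w.2)
          (fun w => D.Z w.1) (fun w => (E.y w.2, E.s w.2))
        have e3 : MI (glue D.p E.p D.pt E.pt) (fun w => (E.Z w.2, E.n w.2))
            (fun w => D.Z w.1) (fun w => (E.y w.2, E.s w.2)) = MI (glue D.p E.p D.pt E.pt)
            (fun w => (E.n w.2, E.Z w.2)) (fun w => D.Z w.1) (fun w => (E.y w.2, E.s w.2)) := by
          refine MI_congr h0 ?_ ?_ ?_ ?_ ?_ ?_ <;>
          · intro w w' x x' h
            simp only [Prod.mk.injEq] at h ⊢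
            tauto
        have e4 : MI (glue D.p E.p D.pt E.pt) (fun w => E.Z w.2) (fun w => D.Z w.1)
            (fun w => (E.n w.2, (E.y w.2, E.s w.2))) = 0 := by
          rw [MI_symm h0, ← ci]
          refine MI_congr h0 ?_ ?_ ?_ ?_ ?_ ?_ <;>
          · intro w w' x x' h
            have k1 := heq w x
            have k2 := heq w' x'
            simp only [Dt.pt, Prod.mk.injEq] at k1 k2 h ⊢
            simp only [k1, k2] at h ⊢
            tauto
        have e5 := MI_nonneg h0 (fun w => E.Z w.2) (fun w => D.Z w.1) (fun w => (E.y w.2, E.s w.2))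
        have e6 : MI (glue D.p E.p D.pt E.pt) (fun w => E.n w.2) (fun w => D.Z w.1)
            (fun w => (E.y w.2, E.s w.2)) = MI (glue D.p E.p D.pt E.pt) (fun w => D.n w.1)
            (fun w => D.Z w.1) (fun w => (D.y w.1, D.s w.1)) := by
          refine MI_congr h0 ?_ ?_ ?_ ?_ ?_ ?_ <;>
          · intro w w' x x' h
            have k1 := heq w x
            have k2 := heq w' x'
            simp only [Dt.pt, Prod.mk.injEq] at k1 k2 h ⊢
            simp only [k1, k2] at h ⊢
            tauto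
        linarith
      have g4 : MI (glue D.p E.p D.pt E.pt) (fun w => E.n w.2) (fun w => D.Z w.1)
          (fun w => (E.y w.2, (E.s w.2, E.Z w.2))) ≤ a := by
        refine le_trans ?_ m4
        have g5 : MI (glue D.p E.p D.pt E.pt) (fun w => E.n w.2) (fun w => D.Z w.1)
            (fun w => (E.y w.2, (E.s w.2, E.Z w.2))) = MI (glue D.p E.p D.pt E.pt)
            (fun w => E.n w.2) (fun w => D.Z w.1) (fun w => (E.y w.2, (E.Z w.2, (E.y w.2, E.s w.2)))) := by
          refine MI_congr h0 ?_ ?_ ?_ ?_ ?_ ?_ <;>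
          · intro w w' x x' h
            simp only [Prod.mk.injEq] at h ⊢
            tauto
        rw [g5]
        refine MI_data h0 ?_ ?_ <;>
        · intro w w' x x' h
          simp only [Prod.mk.injEq] at h ⊢
          tauto
      have g6 := hE.fu
      rw [g2] at g1
      linarith
    have hC0 := le_abs_self (Csb c)
    linarith

end Pool.POT
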