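import Pool.Agent.H21.PT2.Ptc
import Pool.Agent.H21.POT.Cov

/-!
# The conserved body contains the vectors of all explicit bodies (K_POT for P5)

`potv`: for a line system whose target is not full, ONE body which is a function of the exact
point, is conserved along the lines, has a near covector, and contains every family of vectors
which are functions of other times of the line and lie in a full body of these times.
-/

set_option autoImplicit false

namespace Pool.POT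

open Finset Real Matrix
open Pool.Agent.H49.Ent Pool.Agent.H32.Dense Pool.STK Pool.FAD
open Pool.SLO (tup tup_nonneg tup_isLaw)
open Pool.KS6 (ind ind_nonneg)
open Pool.QC (nfb)
open Pool.BFL (Pb)
open Pool.LBL (Ad)

variable {c : ℕ}

theorem Ptc_le {Γ d δ e : ℝ} (hc : 0 < c) (hΓ : 1 ≤ Γ) :
    Ptc c d δ e Γ (2 * Γ) ≤ δ + 3 * d + 4 * e + 6 * c * el c Γ := by
  unfold Ptc
  linarith [Pt_le (d := d) (δ := δ) (e := e) hc hΓ]

open Classical in
/-- A body on the support. -/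
noncomputable def rA {Ω Θ : Type} (N : ℕ) (th : Ω → Θ)
    (A0 : (Fin (N + 1) → Θ) → Matrix (Fin c) (Fin c) ℝ) (t : Fin (N + 1) → Θ) :
    Matrix (Fin c) (Fin c) ℝ :=
  if ∃ w : Fin (N + 1) → Ω, t = fun j => th (w j) then A0 t else 1

theorem rA_th {Ω Θ : Type} {N : ℕ} (th : Ω → Θ)
    (A0 : (Fin (N + 1) → Θ) → Matrix (Fin c) (Fin c) ℝ) (w : Fin (N + 1) → Ω) :
    rA N th A0 (fun j => th (w j)) = A0 fun j => th (w j) := by
  unfold rA
  rw [if_pos ⟨w, rfl⟩]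

set_option maxHeartbeats 4000000 in
/-- **The conserved body with all vectors.** -/
theorem potv (c : ℕ) (n₀ : Fin c) (hn₀ : ∀ i, i ≤ n₀) (c0 x1 zz η : ℝ) (B N0 : ℕ) (hx1 : 0 ≤ x1)
    (hzz : 0 < zz) (hη : 0 < η) (hB : 0 < B) :
    ∃ io : ℝ, 0 < io ∧ ∀ K1 : ℝ, 1 ≤ K1 → ∃ X0 : ℕ, ∀ X : ℕ, X0 ≤ X → ∀ {σ υ : Type}
      (Q : Ln c σ υ), Q.Okc (io * X) (io * X) (io * X) (2 ^ (io * X)) (2 * 2 ^ (io * X)) →
    nfb Q.p Q.n (fun ω => (Q.y ω, Q.s ω)) n₀ X B ≤ (1 - c0) * X * Real.log 2 →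
    ∃ A : σ × (υ × (Fin c → ℤ)) → Matrix (Fin c) (Fin c) ℝ,
      (∀ P, (A P).det ≠ 0 ∧ (∀ i j, |A P i j| ≤ 2 ^ (zz * X)) ∧
        ∀ i j, |(A P)⁻¹ i j| ≤ 2 ^ X) ∧
      c0 - x1 - η ≤ Pb Q.p (fun ω => ∃ m, Ad (A (Q.pt ω)) n₀
        ((2 : ℝ) ^ ((X : ℝ) / B)) (2 ^ (-((x1 - zz) * X))) m) ∧
      Pb (tup Q.p Q.L 1) (fun w => ¬ ∀ i j, |((A (Q.pt (w 0)))⁻¹ *
          (Q.M (w 0) * (Q.M (w 1))⁻¹ * A (Q.pt (w 1)))) i j| ≤ 2 ^ (zz * X)) ≤ η ∧
      ∀ N ≤ N0, ∀ (A0 : (Fin (N + 1) → Q.Θ) → Matrix (Fin c) (Fin c) ℝ) (h : Q.Ω → Fin c → ℤ)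
        {V : Type} (f : (Fin (N + 1) → Q.Θ) → V → Fin c → ℝ),
        (∀ w : Fin (N + 1) → Q.Ω, (A0 fun j => Q.th (w j)).det ≠ 0 ∧
          (∀ i j, |A0 (fun j => Q.th (w j)) i j| ≤ K1) ∧
          ∀ i j, |(A0 fun j => Q.th (w j))⁻¹ i j| ≤ 2 ^ X) →
        (∀ (w : Fin (N + 1) → Q.Ω) (v : V) (b : Fin c),
          |((A0 fun j => Q.th (w j))⁻¹ *ᵥ f (fun j => Q.th (w j)) v) b| ≤ K1) →
        Det Q.p (fun ω => (Q.L ω, Q.th ω)) h →
        MI Q.p h Q.v (fun ω => (Q.th ω, Q.b ω)) ≤ io * X →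
        (∀ ω ω', 0 < Q.p ω → 0 < Q.p ω' →
          (Q.y ω, (Q.b ω, Q.th ω)) = (Q.y ω', (Q.b ω', Q.th ω')) →
          ∀ i, |((Q.M ω)⁻¹ *ᵥ dv (Q.n ω) (Q.n ω')) i - dv (h ω) (h ω') i| ≤
            2 * 2 ^ (io * X)) →
        DF (tup Q.p Q.L (N + 1)) (fun _ => Tx c X) (fun w => A0 fun j => Q.th (w j.succ))
          (fun w => xv X (h (w 0)))
          (fun w => (Q.b (w 0), (Q.th (w 0), fun j : Fin (N + 1) => Q.th (w j.succ)))) ≤
          io * X →
        Pb (tup Q.p Q.L (N + 1)) (fun w => ¬ ∀ v b, |((A (Q.pt (w 0)))⁻¹ *ᵥ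
          (Q.M (w 0) *ᵥ f (fun j => Q.th (w j.succ)) v)) b| ≤ 2 ^ (zz * X)) ≤ η := by
  classical
  have hc : 0 < c := lt_of_le_of_lt (Nat.zero_le _) n₀.2
  have hc1 : (1 : ℝ) ≤ c := by exact_mod_cast hc
  have hl : 0 < Real.log 2 := Real.log_pos (by norm_num)
  have hl1 : Real.log 2 ≤ 1 := by
    have := Real.log_two_lt_d9
    linarith
  have hlc : 0 ≤ Real.log c := Real.log_nonneg hc1
  have hN0 : (0 : ℝ) ≤ N0 := Nat.cast_nonneg N0
  obtain ⟨io1, hio1, X1, hpot⟩ := potc c n₀ hn₀ c0 x1 (zz / 2) η B hx1 (by linarith) hη hB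
  obtain ⟨io, hio⟩ : ∃ io, io = io1 / (2 * (N0 + 16 + 6 * c)) := ⟨_, rfl⟩
  have hio0 : 0 < io := by rw [hio]; positivity
  have hio' : io * (2 * (N0 + 16 + 6 * c)) = io1 := by
    rw [hio]
    field_simp
  have hioa : io * 2 ≤ io1 := by nlinarith
  have hiob : io * 8 ≤ io1 := by nlinarith
  refine ⟨io, hio0, fun K1 hK1 => ?_⟩
  have hlK : 0 ≤ Real.log K1 := Real.log_nonneg hK1
  obtain ⟨X2, h2⟩ := ex_ge (a := io1 / 2) (b := 6 * c * (Real.log c + 3)) (by positivity)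
  obtain ⟨X3, h3⟩ := ex_ge (a := io1 / 2 * Real.log 2) (b := Real.log K1 + 4 * Real.log c)
    (by positivity)
  obtain ⟨X4, h4⟩ := ex_ge (a := zz / 2 * Real.log 2) (b := Real.log (c * K1)) (by positivity)
  obtain ⟨X5, h5⟩ := ex_ge (a := io1 / 2 * Real.log 2) (b := Real.log 2) (by positivity)
  refine ⟨max X1 (max X2 (max X3 (max X4 X5))), ?_⟩
  intro X hX σ υ Q hQ hnf
  have hX1 : X1 ≤ X := (le_max_left _ _).trans hX
  have hXX := (le_max_right _ _).trans hX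
  have h2 := h2 X ((le_max_left _ _).trans hXX)
  have hXX' := (le_max_right _ _).trans hXX
  have h3 := h3 X ((le_max_left _ _).trans hXX')
  have hXX'' := (le_max_right _ _).trans hXX'
  have h4 := h4 X ((le_max_left _ _).trans hXX'')
  have h5 := h5 X ((le_max_right _ _).trans hXX'')
  have hX0 : (0 : ℝ) ≤ X := Nat.cast_nonneg X
  obtain ⟨Γ, hΓe⟩ : ∃ Γ : ℝ, Γ = 2 ^ (io * X) := ⟨_, rfl⟩
  rw [← hΓe] at hQ
  rw [← hΓe]
  have hΓ : 1 ≤ Γ := by
    rw [hΓe]
    exact Real.one_le_rpow (by norm_num) (by positivity)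
  have hlΓ : Real.log Γ = io * X * Real.log 2 := by
    rw [hΓe, Real.log_rpow (by norm_num)]
  have hel : el c Γ ≤ Real.log c + 3 + io * X := by
    unfold el
    rw [hlΓ]
    nlinarith [mul_nonneg hio0.le hX0]
  have hioX : 0 ≤ io * X := mul_nonneg hio0.le hX0
  have hle : io * X ≤ io1 * X := mul_le_mul_of_nonneg_right (by linarith) hX0
  have hΓle : 2 * Γ ≤ 2 ^ (io1 * X) := by
    rw [← Real.log_le_log_iff (by linarith) (by positivity), Real.log_mul (by norm_num)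
      (by linarith), hlΓ, Real.log_rpow (by norm_num)]
    have k1 := mul_le_mul_of_nonneg_right hioa (show 0 ≤ X * Real.log 2 by positivity)
    nlinarith
  obtain ⟨A, hA, hcv, htr, hdat, -⟩ := hpot X hX1 Q
    (hQ.mono hle hle hle (by linarith) hΓle) hnf
  have hzp : (2 : ℝ) ^ (zz / 2 * X) ≤ 2 ^ (zz * X) :=
    Real.rpow_le_rpow_of_exponent_le (by norm_num)
      (mul_le_mul_of_nonneg_right (by linarith) hX0)
  have hp := hQ.law.nonneg
  refine ⟨A, fun P => ⟨(hA P).1, fun i j => ((hA P).2.1 i j).trans hzp, (hA P).2.2⟩, ?_, ?_, ?_⟩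
  · refine hcv.trans (pb_mono hp fun ω _ hω => ?_)
    obtain ⟨m, hm⟩ := hω
    refine ⟨m, hm.mono le_rfl ?_⟩
    refine Real.rpow_le_rpow_of_exponent_le (by norm_num) ?_
    have : (x1 - zz) * X ≤ (x1 - zz / 2) * X := mul_le_mul_of_nonneg_right (by linarith) hX0
    linarith
  · refine le_trans (pb_mono (fun w => tup_nonneg hp Q.L 1 w) fun w _ hw => ?_) htr
    intro hcon
    exact hw fun i j => (hcon i j).trans hzp
  · intro N hN A0 h V f hA0 hf dh hh2 hrel hg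
    have hNr : (N : ℝ) ≤ N0 := by exact_mod_cast hN
    have hN' : (0 : ℝ) ≤ N := Nat.cast_nonneg N
    have hone : ∀ i j : Fin c, |(1 : Matrix (Fin c) (Fin c) ℝ) i j| ≤ 1 :=
      one_ent (le_refl (1 : ℝ))
    have h2X : (1 : ℝ) ≤ 2 ^ X := one_le_pow₀ (by norm_num)
    obtain ⟨A1, hA1⟩ : ∃ A1, A1 = rA N Q.th A0 := ⟨_, rfl⟩
    have hth : ∀ w : Fin (N + 1) → Q.Ω, A1 (fun j => Q.th (w j)) = A0 fun j => Q.th (w j) :=
      fun w => by
        rw [hA1]
        exact rA_th Q.th A0 w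
    have hA1' : ∀ t, (A1 t).det ≠ 0 ∧ (∀ i j, |A1 t i j| ≤ K1) ∧
        ∀ i j, |(A1 t)⁻¹ i j| ≤ 2 ^ X := by
      intro t
      by_cases ht : ∃ w : Fin (N + 1) → Q.Ω, t = fun j => Q.th (w j)
      · obtain ⟨w, rfl⟩ := ht
        rw [hth]
        exact hA0 w
      · have e : A1 t = 1 := by
          rw [hA1]
          unfold rA
          rw [if_neg ht]
        rw [e]
        refine ⟨by rw [Matrix.det_one]; exact one_ne_zero, fun i j => (hone i j).trans hK1,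
          fun i j => ?_⟩
        rw [inv_one]
        exact (hone i j).trans h2X
    have hg1 : DF (tup Q.p Q.L (N + 1)) (fun _ => Tx c X) (fun w => A1 fun j => Q.th (w j.succ))
        (fun w => xv X (h (w 0)))
        (fun w => (Q.b (w 0), (Q.th (w 0), fun j : Fin (N + 1) => Q.th (w j.succ)))) ≤
        io * X := by
      have e : (fun w : Fin (N + 1 + 1) → Q.Ω => A1 fun j : Fin (N + 1) => Q.th (w j.succ)) =
          fun w => A0 fun j : Fin (N + 1) => Q.th (w j.succ) := by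
        funext w
        exact hth fun j => w j.succ
      rw [e]
      exact hg
    have hQ2 : Q.Okc (io * X) (io * X) (io * X) Γ (2 * Γ) := hQ
    have hD := Ln.bd_okc hQ2 hc hΓ (by linarith) N hioX hA1' dh hh2 (by
      intro ω ω' x x' e i
      exact hrel ω ω' x x' e i) hg1
    -- the prices
    have hent : Gm c Γ ^ 2 * K1 ≤ 2 ^ (io1 * X) := by
      have hG := one_le_Gm hc hΓ
      have hG2 : 1 ≤ Gm c Γ ^ 2 := one_le_pow₀ hG
      have hpos : 0 < Gm c Γ ^ 2 * K1 := by positivity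
      rw [← Real.log_le_log_iff hpos (by positivity), Real.log_mul (by positivity) (by linarith),
        Real.log_pow, log_Gm hc hΓ, hlΓ, Real.log_rpow (by norm_num)]
      have k1 := mul_le_mul_of_nonneg_right hiob (show 0 ≤ X * Real.log 2 by positivity)
      push_cast
      nlinarith
    have hpr : io * X + (N + 1) * (io * X) + Ptc c (io * X) (io * X) (io * X) Γ (2 * Γ) ≤
        io1 * X := by
      have k1 := Ptc_le (d := io * X) (δ := io * X) (e := io * X) hc hΓ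
      have k2 : (c : ℝ) * el c Γ ≤ c * (Real.log c + 3 + io * X) :=
        mul_le_mul_of_nonneg_left hel (by linarith)
      have k3 : (N : ℝ) * (io * X) ≤ N0 * (io * X) := mul_le_mul_of_nonneg_right hNr hioX
      have k4 : io * (2 * (N0 + 16 + 6 * c)) * X = io1 * X := by rw [hio']
      nlinarith
    have hfin := hdat _ (hD.mono' hent hpr)
    have hG1 := one_le_Gm hc hΓ
    have hL0 : (0 : ℝ) ≤ 2 ^ (zz / 2 * X) := by positivity
    have hcK : (c : ℝ) * (2 ^ (zz / 2 * X) * K1) ≤ 2 ^ (zz * X) := by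
      have k1 : (c : ℝ) * K1 ≤ 2 ^ (zz / 2 * X) := by
        rw [← Real.log_le_log_iff (by positivity) (by positivity), Real.log_rpow (by norm_num)]
        linarith
      calc (c : ℝ) * (2 ^ (zz / 2 * X) * K1) = c * K1 * 2 ^ (zz / 2 * X) := by ring
        _ ≤ 2 ^ (zz / 2 * X) * 2 ^ (zz / 2 * X) := mul_le_mul_of_nonneg_right k1 hL0
        _ = 2 ^ (zz * X) := by
            rw [← Real.rpow_add (by norm_num)]
            congr 1
            ring
    have hfin' : Pb (tup Q.p Q.L (N + 1)) (fun w => Far (2 ^ (zz / 2 * X)) (A (Q.pt (w 0)))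
        (tb Γ (Q.M (w 0)) 1 (A1 fun j => Q.th (w j.succ)))) ≤ η := hfin
    refine le_trans (pb_mono (fun w => tup_nonneg hp Q.L (N + 1) w) fun w _ hw => ?_) hfin'
    by_contra hcon
    apply hw
    intro v b
    have e := hth fun j => w j.succ
    rw [e] at hcon
    exact bd_pt hG1 (K1 := K1) (hA0 fun j => w j.succ).1 hcon hL0
      (fun b => hf (fun j => w j.succ) v b) hcK b

end Pool.POT
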