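import Pool.Agent.H21.PT2.Mxc

/-!
# Transport of data with a conditional price (K_POT for P5)

`trs_frc`, `trs_fuc`: a datum at one time of a line, together with the context and the time, is a
datum at another time of the line. `tim_frc`: a function of other times of the line is fresh.
-/

set_option autoImplicit false

namespace Pool.POT

open Finset Real
open Pool.Agent.H49.Ent Pool.Agent.H32.Dense Pool.STK Pool.FAD
open Pool.KS6 (ind ind_nonneg)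
open Matrix

variable {c : ℕ} {σ υ : Type}

section abs

variable {Ω Λ β V Θ ζ : Type} [Fintype Ω] {q : Ω → ℝ} {L : Ω → Λ} {b : Ω → β} {v : Ω → V}
  {y0 y1 : Ω → υ} {th0 th1 : Ω → Θ} {s0 s1 : Ω → σ} {n0 n1 : Ω → Fin c → ℤ} {Z : Ω → ζ}
  {A M0 M1 : Ω → Matrix (Fin c) (Fin c) ℝ} {a d δ e R Γ : ℝ}

/-- The height and the time of a sample have little information on each other. -/
theorem MI_n_th (hq : ∀ ω, 0 ≤ q ω) (ds0 : Det q (fun ω => (b ω, th0 ω)) s0) (a10 : MI q th0 L b ≤ d)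
    (c10 : CH q (fun ω => (y0 ω, n0 ω)) (fun ω => (L ω, s0 ω)) ≤ e) :
    MI q n0 th0 (fun ω => (b ω, (y0 ω, s0 ω))) ≤ d + e := by
  have g1 : MI q L th0 (fun ω => (s0 ω, b ω)) ≤ MI q L th0 b :=
    MI_cond_right hq (fun ω ω' x x' h => by
      simp only [Prod.mk.injEq] at h
      exact ds0 ω ω' x x' (Prod.ext h.2 h.1))
  have g2 : MI q L th0 b ≤ d := by
    rw [MI_symm hq]
    exact a10
  have g3 : MI q n0 th0 (fun ω => (b ω, (y0 ω, s0 ω))) =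
      MI q n0 th0 (fun ω => (y0 ω, (s0 ω, b ω))) := by
    refine MI_congr hq ?_ ?_ ?_ ?_ ?_ ?_ <;>
    · intro ω ω' _ _ h
      simp only [Prod.mk.injEq] at h ⊢
      tauto
  have g4 : MI q n0 th0 (fun ω => (y0 ω, (s0 ω, b ω))) ≤
      MI q (fun ω => (L ω, (y0 ω, n0 ω))) th0 (fun ω => (s0 ω, b ω)) := by
    refine MI_data hq ?_ ?_ <;>
    · intro ω ω' _ _ h
      simp only [Prod.mk.injEq] at h
      tauto
  have g5 := MI_chain_left hq L (fun ω => (y0 ω, n0 ω)) th0 (fun ω => (s0 ω, b ω))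
  have g6 : MI q (fun ω => (y0 ω, n0 ω)) th0 (fun ω => (L ω, (s0 ω, b ω))) ≤ e := by
    refine (MI_le_CH hq _ _ _).trans (le_trans (CH_mono_cond hq ?_) c10)
    intro ω ω' _ _ h
    simp only [Prod.mk.injEq] at h ⊢
    tauto
  linarith

/-- From the near point to the line. -/
theorem MI_n_L {κ τ : Type} {W : Ω → κ} {T : Ω → τ} (hq : ∀ ω, 0 ≤ q ω) (hW : Det q W s0)
    (c10 : CH q (fun ω => (y0 ω, n0 ω)) (fun ω => (L ω, s0 ω)) ≤ e) (c0 : CH q y0 W ≤ e) :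
    MI q n0 T (fun ω => (y0 ω, W ω)) ≤ MI q L T W + 2 * e := by
  have g2 := MI_chain_left hq y0 n0 T W
  have g4 : MI q (fun ω => (y0 ω, n0 ω)) T W ≤ MI q (fun ω => (L ω, (y0 ω, n0 ω))) T W := by
    refine MI_le_left hq ?_
    intro ω ω' _ _ h
    exact (Prod.ext_iff.mp (Prod.ext_iff.mp h).1).2
  have g5 := MI_nonneg hq y0 T W
  have g6 := MI_chain_left hq L (fun ω => (y0 ω, n0 ω)) T W
  have g7 : MI q (fun ω => (y0 ω, n0 ω)) T (fun ω => (L ω, W ω)) ≤ e := by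
    refine (MI_le_CH hq _ _ _).trans (le_trans (CH_mono_cond hq ?_) c10)
    intro ω ω' x x' h
    exact Prod.ext (Prod.ext_iff.mp h).1 (hW ω ω' x x' (Prod.ext_iff.mp h).2)
  have he : 0 ≤ e := (CH_nonneg hq _ _).trans c0
  linarith

/-- The datum sees the line only through the near point. -/
theorem MI_L_Z {κ : Type} {W : Ω → κ} (hq : ∀ ω, 0 ≤ q ω) (hW : Det q W s1)
    (ci : MI q (fun ω => (L ω, W ω)) Z (fun ω => (s1 ω, (y1 ω, n1 ω))) ≤ 0)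
    (c1 : CH q y1 W ≤ e) (e1 : MI q n1 Z (fun ω => (y1 ω, s1 ω)) ≤ a) :
    MI q L Z W ≤ a + e := by
  have g1 : MI q L Z W ≤ MI q (fun ω => ((y1 ω, n1 ω), L ω)) Z W := by
    refine MI_le_left hq ?_
    intro ω ω' _ _ h
    exact (Prod.ext_iff.mp (Prod.ext_iff.mp h).1).2
  have g2 := MI_chain_left hq (fun ω => (y1 ω, n1 ω)) L Z W
  have g3 : MI q L Z (fun ω => ((y1 ω, n1 ω), W ω)) ≤ 0 := by
    refine le_trans ?_ ci
    have k1 : MI q L Z (fun ω => ((y1 ω, n1 ω), W ω)) =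
        MI q L Z (fun ω => (W ω, (s1 ω, (y1 ω, n1 ω)))) := by
      refine MI_congr hq ?_ ?_ ?_ ?_ ?_ ?_
      all_goals
        intro ω ω' x x' h
        simp only [Prod.mk.injEq] at h ⊢
      · exact ⟨h.1, h.2.2, hW ω ω' x x' h.2.2, h.2.1⟩
      · tauto
      · exact ⟨h.1, h.2.2, hW ω ω' x x' h.2.2, h.2.1⟩
      · tauto
      · exact ⟨h.2, hW ω ω' x x' h.2, h.1⟩
      · tauto
    rw [k1]
    refine MI_data hq ?_ ?_ <;>
    · intro ω ω' _ _ h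
      simp only [Prod.mk.injEq] at h ⊢
      tauto
  have g4 := MI_chain_left hq y1 n1 Z W
  have g5 : MI q y1 Z W ≤ e := (MI_le_CH hq _ _ _).trans c1
  have g6 : MI q n1 Z (fun ω => (y1 ω, W ω)) ≤ a := by
    have k1 : MI q n1 Z (fun ω => (y1 ω, W ω)) =
        MI q n1 Z (fun ω => (W ω, (y1 ω, s1 ω))) := by
      refine MI_congr hq ?_ ?_ ?_ ?_ ?_ ?_
      all_goals
        intro ω ω' x x' h
        simp only [Prod.mk.injEq] at h ⊢
      · exact ⟨h.1, h.2.2, h.2.1, hW ω ω' x x' h.2.2⟩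
      · tauto
      · exact ⟨h.1, h.2.2, h.2.1, hW ω ω' x x' h.2.2⟩
      · tauto
      · exact ⟨h.2, h.1, hW ω ω' x x' h.2⟩
      · tauto
    have k2 : MI q n1 Z (fun ω => (W ω, (y1 ω, s1 ω))) ≤
        MI q (fun ω => (n1 ω, W ω)) Z (fun ω => (y1 ω, s1 ω)) := by
      refine MI_data hq ?_ ?_ <;>
      · intro ω ω' _ _ h
        simp only [Prod.mk.injEq] at h ⊢
        tauto
    have k3 := MI_chain_left hq n1 W Z (fun ω => (y1 ω, s1 ω))
    have k4 : MI q W Z (fun ω => (n1 ω, (y1 ω, s1 ω))) ≤ 0 := by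
      refine le_trans ?_ ci
      have k5 : MI q W Z (fun ω => (n1 ω, (y1 ω, s1 ω))) =
          MI q W Z (fun ω => (s1 ω, (y1 ω, n1 ω))) := by
        refine MI_congr hq ?_ ?_ ?_ ?_ ?_ ?_ <;>
        · intro ω ω' _ _ h
          simp only [Prod.mk.injEq] at h ⊢
          tauto
      rw [k5]
      refine MI_le_left hq ?_
      intro ω ω' _ _ h
      exact (Prod.ext_iff.mp (Prod.ext_iff.mp h).1).2
    linarith
  linarith

/-- The freshness of the transported datum. -/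
theorem trs_frc (hq : ∀ ω, 0 ≤ q ω) (dLb : Det q L b) (dLv : Det q L v)
    (ds0 : Det q (fun ω => (b ω, th0 ω)) s0) (ds1 : Det q (fun ω => (b ω, th1 ω)) s1)
    (ci1 : MI q (fun ω => (th0 ω, (y0 ω, n0 ω))) (fun ω => (th1 ω, Z ω)) L = 0)
    (ci2 : MI q (fun ω => (L ω, (th0 ω, th1 ω))) Z (fun ω => (s1 ω, (y1 ω, n1 ω))) = 0)
    (a10 : MI q th0 L b ≤ d) (a11 : MI q th1 L b ≤ d)
    (a20 : MI q n0 v (fun ω => (y0 ω, (b ω, th0 ω))) ≤ d)
    (a30 : MI q n0 b (fun ω => (y0 ω, s0 ω)) ≤ δ)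
    (c10 : CH q (fun ω => (y0 ω, n0 ω)) (fun ω => (L ω, s0 ω)) ≤ e)
    (c0 : CH q y0 (fun ω => (v ω, (b ω, th0 ω))) ≤ e)
    (c1 : CH q y1 (fun ω => (v ω, (b ω, th1 ω))) ≤ e)
    (e1 : MI q n1 Z (fun ω => (y1 ω, s1 ω)) ≤ a) :
    MI q n0 (fun ω => (b ω, (th1 ω, Z ω))) (fun ω => (y0 ω, s0 ω)) ≤
      a + (δ + 3 * d + 4 * e) := by
  -- the context, then the rest
  have f1 := MI_chain hq n0 b (fun ω => (th1 ω, Z ω)) (fun ω => (y0 ω, s0 ω))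
  -- add the time
  have f2 : MI q n0 (fun ω => (th1 ω, Z ω)) (fun ω => (b ω, (y0 ω, s0 ω))) ≤
      MI q n0 (fun ω => (th0 ω, (th1 ω, Z ω))) (fun ω => (b ω, (y0 ω, s0 ω))) := by
    refine MI_le_right hq ?_
    intro ω ω' _ _ h
    exact (Prod.ext_iff.mp (Prod.ext_iff.mp h).1).2
  have f3 := MI_chain hq n0 th0 (fun ω => (th1 ω, Z ω)) (fun ω => (b ω, (y0 ω, s0 ω)))
  have f4 := MI_n_th hq ds0 a10 c10
  -- the condition
  have e0 : MI q n0 (fun ω => (th1 ω, Z ω)) (fun ω => (th0 ω, (b ω, (y0 ω, s0 ω)))) =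
      MI q n0 (fun ω => (th1 ω, Z ω)) (fun ω => (y0 ω, (b ω, th0 ω))) := by
    refine MI_congr hq ?_ ?_ ?_ ?_ ?_ ?_
    all_goals
      intro ω ω' x x' h
      simp only [Prod.mk.injEq] at h ⊢
    · tauto
    · exact ⟨h.1, h.2.2.2, h.2.2.1, h.2.1, ds0 ω ω' x x' (Prod.ext h.2.2.1 h.2.2.2)⟩
    · tauto
    · exact ⟨h.1, h.2.2.2, h.2.2.1, h.2.1, ds0 ω ω' x x' (Prod.ext h.2.2.1 h.2.2.2)⟩
    · tauto
    · exact ⟨h.2.2, h.2.1, h.1, ds0 ω ω' x x' (Prod.ext h.2.1 h.2.2)⟩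
  -- add the velocity
  have f5 : MI q n0 (fun ω => (th1 ω, Z ω)) (fun ω => (y0 ω, (b ω, th0 ω))) ≤
      MI q n0 (fun ω => (v ω, (th1 ω, Z ω))) (fun ω => (y0 ω, (b ω, th0 ω))) := by
    refine MI_le_right hq ?_
    intro ω ω' _ _ h
    exact (Prod.ext_iff.mp (Prod.ext_iff.mp h).1).2
  have f6 := MI_chain hq n0 v (fun ω => (th1 ω, Z ω)) (fun ω => (y0 ω, (b ω, th0 ω)))
  have e2 : MI q n0 (fun ω => (th1 ω, Z ω)) (fun ω => (v ω, (y0 ω, (b ω, th0 ω)))) =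
      MI q n0 (fun ω => (th1 ω, Z ω)) (fun ω => (y0 ω, (v ω, (b ω, th0 ω)))) := by
    refine MI_congr hq ?_ ?_ ?_ ?_ ?_ ?_ <;>
    · intro ω ω' _ _ h
      simp only [Prod.mk.injEq] at h ⊢
      tauto
  have f8 := MI_n_L (T := fun ω => (th1 ω, Z ω)) hq
    (show Det q (fun ω => (v ω, (b ω, th0 ω))) s0 from
      fun ω ω' x x' h => ds0 ω ω' x x' (Prod.ext_iff.mp h).2) c10 c0
  -- the other time
  have f10 := MI_chain hq L th1 Z (fun ω => (v ω, (b ω, th0 ω)))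
  have f11 : MI q L th1 (fun ω => (v ω, (b ω, th0 ω))) ≤ d := by
    have g0 : MI q L th1 (fun ω => (v ω, (b ω, th0 ω))) =
        MI q L th1 (fun ω => ((v ω, th0 ω), b ω)) := by
      refine MI_congr hq ?_ ?_ ?_ ?_ ?_ ?_ <;>
      · intro ω ω' _ _ h
        simp only [Prod.mk.injEq] at h ⊢
        tauto
    have g1 : MI q L th1 (fun ω => ((v ω, th0 ω), b ω)) ≤
        MI q (fun ω => (L ω, th0 ω)) th1 b := by
      refine MI_data hq ?_ ?_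
      · intro ω ω' _ _ h
        exact (Prod.ext_iff.mp (Prod.ext_iff.mp h).1).1
      · intro ω ω' x x' h
        simp only [Prod.mk.injEq] at h ⊢
        exact ⟨dLv ω ω' x x' h.1.1, h.1.2⟩
    have g2 := MI_chain_left hq L th0 th1 b
    have g3 : MI q L th1 b ≤ d := by
      rw [MI_symm hq]
      exact a11
    have g4 : MI q th0 th1 (fun ω => (L ω, b ω)) ≤ 0 := by
      rw [MI_redL hq dLb, ← ci1]
      refine (MI_le_left hq (X := fun ω => (th0 ω, (y0 ω, n0 ω))) ?_).trans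
        (MI_le_right hq (X := fun ω => (th1 ω, Z ω)) ?_)
      · intro ω ω' _ _ h
        exact (Prod.ext_iff.mp (Prod.ext_iff.mp h).1).1
      · intro ω ω' _ _ h
        exact (Prod.ext_iff.mp (Prod.ext_iff.mp h).1).1
    linarith
  have f12 : MI q L Z (fun ω => (th1 ω, (v ω, (b ω, th0 ω)))) ≤ a + e := by
    refine MI_L_Z hq ?_ ?_ ?_ e1
    · intro ω ω' x x' h
      simp only [Prod.mk.injEq] at h
      exact ds1 ω ω' x x' (Prod.ext h.2.2.1 h.1)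
    · rw [← ci2]
      refine MI_le_left hq ?_
      intro ω ω' x x' h
      simp only [Prod.mk.injEq] at h ⊢
      exact ⟨h.1.1, h.1.2.2, dLv ω ω' x x' h.1.1, dLb ω ω' x x' h.1.1, h.1.2.1⟩
    · refine le_trans (CH_mono_cond hq ?_) c1
      intro ω ω' _ _ h
      simp only [Prod.mk.injEq] at h ⊢
      exact ⟨h.2.1, h.2.2.1, h.1⟩
  linarith

/-- The fullness of the transported datum. -/
theorem trs_fuc (hq : IsLaw q) (X : ℕ) (hc : 0 < c) (hΓ : 1 ≤ Γ) (hR : 0 ≤ R)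
    (dLb : Det q L b) (dLv : Det q L v) (ds1 : Det q (fun ω => (b ω, th1 ω)) s1)
    (ds0 : Det q (fun ω => (b ω, th0 ω)) s0) (dZ : Det q (fun ω => (s1 ω, Z ω)) A)
    (dM0 : Det q (fun ω => (b ω, th0 ω)) M0) (dM1 : Det q (fun ω => (b ω, th1 ω)) M1)
    (hA : ∀ ω, (A ω).det ≠ 0) (hAi : ∀ ω i j, |(A ω)⁻¹ i j| ≤ 2 ^ X)
    (h0 : ∀ ω, (M0 ω).det = 1) (h1 : ∀ ω, (M1 ω).det = 1) (h1' : ∀ ω i j, |M1 ω i j| ≤ Γ)
    (ci1 : MI q th0 (fun ω => (th1 ω, (y1 ω, n1 ω))) L = 0)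
    (ci2 : MI q (fun ω => (L ω, (th0 ω, th1 ω))) Z (fun ω => (s1 ω, (y1 ω, n1 ω))) = 0)
    (a10 : MI q th0 L b ≤ d) (a11 : MI q th1 L b ≤ d)
    (a2 : MI q n1 v (fun ω => (y1 ω, (b ω, th1 ω))) ≤ d)
    (a31 : MI q n1 b (fun ω => (y1 ω, s1 ω)) ≤ δ)
    (c1 : CH q (fun ω => (y1 ω, n1 ω)) (fun ω => (L ω, s1 ω)) ≤ e)
    (c0 : CH q y0 (fun ω => (v ω, (b ω, th0 ω))) ≤ e)
    (e2 : DF q (fun _ => Tx c X) A (fun ω => xv X (n1 ω)) (fun ω => (y1 ω, (s1 ω, Z ω))) ≤ a)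
    (tr : ∀ ω ω', 0 < q ω → 0 < q ω' → (v ω, (b ω, (th0 ω, th1 ω))) =
      (v ω', (b ω', (th0 ω', th1 ω'))) → ∀ i,
      |((M0 ω)⁻¹ *ᵥ dv (n0 ω) (n0 ω')) i - ((M1 ω)⁻¹ *ᵥ dv (n1 ω) (n1 ω')) i| ≤ R) :
    DF q (fun _ => Tx c X) (fun ω => tb Γ (M0 ω) (M1 ω) (A ω)) (fun ω => xv X (n0 ω))
      (fun ω => (y0 ω, (s0 ω, (b ω, (th1 ω, Z ω))))) ≤
      a + (δ + 3 * d + 2 * e) + (c * Real.log (Gm c Γ) + Ctr c (1 + (c : ℝ) ^ 2 * Γ * R)) := by
  have hq0 := hq.nonneg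
  -- the large context
  have f1 := DF_less hq0 X (A := fun ω => tb Γ (M0 ω) (M1 ω) (A ω)) (n := n0)
    (Z := fun ω => (y0 ω, (s0 ω, (b ω, (th1 ω, Z ω)))))
    (Z' := fun ω => (y0 ω, ((v ω, (b ω, (th0 ω, th1 ω))), (y1 ω, (s1 ω, Z ω))))) (by
      intro ω ω' x x' h
      simp only [Prod.mk.injEq] at h ⊢
      exact ⟨h.1, ds0 ω ω' x x' (Prod.ext h.2.1.2.1 h.2.1.2.2.1), h.2.1.2.1, h.2.1.2.2.2,
        h.2.2.2.2⟩)
  have dA : Det q (fun ω => ((v ω, (b ω, (th0 ω, th1 ω))), (y1 ω, (s1 ω, Z ω)))) A :=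
    fun ω ω' x x' h => dZ ω ω' x x' (by
      simp only [Prod.mk.injEq] at h ⊢
      exact h.2.2)
  have d0 : Det q (fun ω => ((v ω, (b ω, (th0 ω, th1 ω))), (y1 ω, (s1 ω, Z ω)))) M0 :=
    fun ω ω' x x' h => dM0 ω ω' x x' (by
      simp only [Prod.mk.injEq] at h ⊢
      exact ⟨h.1.2.1, h.1.2.2.1⟩)
  have d1 : Det q (fun ω => ((v ω, (b ω, (th0 ω, th1 ω))), (y1 ω, (s1 ω, Z ω)))) M1 :=
    fun ω ω' x x' h => dM1 ω ω' x x' (by
      simp only [Prod.mk.injEq] at h ⊢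
      exact ⟨h.1.2.1, h.1.2.2.2⟩)
  have f1' := DF_more hq0 X (A := fun ω => tb Γ (M0 ω) (M1 ω) (A ω)) (n := n0)
    (Z := fun ω => ((v ω, (b ω, (th0 ω, th1 ω))), (y1 ω, (s1 ω, Z ω)))) y0
    (fun ω ω' x x' h => by
      have k1 := dA ω ω' x x' h
      have k2 := d0 ω ω' x x' h
      have k3 := d1 ω ω' x x' h
      simp only [k1, k2, k3])
  have f1'' : MI q n0 y0 (fun ω => ((v ω, (b ω, (th0 ω, th1 ω))), (y1 ω, (s1 ω, Z ω)))) ≤ e := by
    rw [MI_symm hq0]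
    refine (MI_le_CH hq0 _ _ _).trans (le_trans (CH_mono_cond hq0 ?_) c0)
    intro ω ω' _ _ h
    simp only [Prod.mk.injEq] at h ⊢
    exact ⟨h.1.1, h.1.2.1, h.1.2.2.1⟩
  have f2 := DF_mat hq X hc hΓ hR dA d0 d1 (fun ω _ => hA ω) (fun ω _ => hAi ω) (fun ω _ => h0 ω)
    (fun ω _ => h1 ω) (fun ω _ => h1' ω) (n := n0) (n' := n1)
    (fun ω ω' x x' h => tr ω ω' x x' (Prod.ext_iff.mp h).1)
  have f3 := DF_more hq0 X (A := A) (n := n1) (Z := fun ω => (y1 ω, (s1 ω, Z ω)))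
    (fun ω => (v ω, (b ω, (th0 ω, th1 ω))))
    (fun ω ω' x x' h => dZ ω ω' x x' (Prod.ext_iff.mp h).2)
  -- the datum can be dropped
  have f4 : MI q n1 (fun ω => (v ω, (b ω, (th0 ω, th1 ω)))) (fun ω => (y1 ω, (s1 ω, Z ω))) ≤
      MI q n1 (fun ω => (v ω, (b ω, (th0 ω, th1 ω)))) (fun ω => (y1 ω, s1 ω)) := by
    have g1 : MI q n1 (fun ω => (v ω, (b ω, (th0 ω, th1 ω)))) (fun ω => (y1 ω, (s1 ω, Z ω))) ≤
        MI q (fun ω => (n1 ω, Z ω)) (fun ω => (v ω, (b ω, (th0 ω, th1 ω))))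
          (fun ω => (y1 ω, s1 ω)) := by
      have g2 : MI q n1 (fun ω => (v ω, (b ω, (th0 ω, th1 ω)))) (fun ω => (y1 ω, (s1 ω, Z ω))) =
          MI q n1 (fun ω => (v ω, (b ω, (th0 ω, th1 ω)))) (fun ω => (Z ω, (y1 ω, s1 ω))) := by
        refine MI_congr hq0 ?_ ?_ ?_ ?_ ?_ ?_ <;>
        · intro ω ω' _ _ h
          simp only [Prod.mk.injEq] at h ⊢
          tauto
      rw [g2]
      refine MI_data hq0 ?_ ?_ <;>
      · intro ω ω' _ _ h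
        simp only [Prod.mk.injEq] at h ⊢
        tauto
    have g3 := MI_chain_left hq0 n1 Z (fun ω => (v ω, (b ω, (th0 ω, th1 ω))))
      (fun ω => (y1 ω, s1 ω))
    have g4 : MI q Z (fun ω => (v ω, (b ω, (th0 ω, th1 ω)))) (fun ω => (n1 ω, (y1 ω, s1 ω))) ≤
        0 := by
      rw [MI_symm hq0, ← ci2]
      have g5 : MI q (fun ω => (v ω, (b ω, (th0 ω, th1 ω)))) Z (fun ω => (n1 ω, (y1 ω, s1 ω))) =
          MI q (fun ω => (v ω, (b ω, (th0 ω, th1 ω)))) Z (fun ω => (s1 ω, (y1 ω, n1 ω))) := by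
        refine MI_congr hq0 ?_ ?_ ?_ ?_ ?_ ?_ <;>
        · intro ω ω' _ _ h
          simp only [Prod.mk.injEq] at h ⊢
          tauto
      rw [g5]
      refine MI_le_left hq0 ?_
      intro ω ω' x x' h
      simp only [Prod.mk.injEq] at h ⊢
      exact ⟨dLv ω ω' x x' h.1.1, dLb ω ω' x x' h.1.1, h.1.2⟩
    linarith
  -- the context
  have f5 : MI q n1 (fun ω => (v ω, (b ω, (th0 ω, th1 ω)))) (fun ω => (y1 ω, s1 ω)) ≤
      MI q n1 b (fun ω => (y1 ω, s1 ω)) +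
        MI q n1 th1 (fun ω => (b ω, (y1 ω, s1 ω))) +
        MI q n1 v (fun ω => (th1 ω, (b ω, (y1 ω, s1 ω)))) +
        MI q n1 th0 (fun ω => (v ω, (th1 ω, (b ω, (y1 ω, s1 ω))))) := by
    have g1 : MI q n1 (fun ω => (v ω, (b ω, (th0 ω, th1 ω)))) (fun ω => (y1 ω, s1 ω)) =
        MI q n1 (fun ω => (b ω, (th1 ω, (v ω, th0 ω)))) (fun ω => (y1 ω, s1 ω)) := by
      refine MI_congr hq0 ?_ ?_ ?_ ?_ ?_ ?_ <;>
      · intro ω ω' _ _ h
        simp only [Prod.mk.injEq] at h ⊢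
        tauto
    have g2 := MI_chain hq0 n1 b (fun ω => (th1 ω, (v ω, th0 ω))) (fun ω => (y1 ω, s1 ω))
    have g3 := MI_chain hq0 n1 th1 (fun ω => (v ω, th0 ω)) (fun ω => (b ω, (y1 ω, s1 ω)))
    have g4 := MI_chain hq0 n1 v th0 (fun ω => (th1 ω, (b ω, (y1 ω, s1 ω))))
    linarith
  have f6 : MI q n1 b (fun ω => (y1 ω, s1 ω)) ≤ δ := a31
  have f7 : MI q n1 th1 (fun ω => (b ω, (y1 ω, s1 ω))) ≤ d + e := by
    have g1 : MI q L th1 (fun ω => (s1 ω, b ω)) ≤ MI q L th1 b :=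
      MI_cond_right hq0 (fun ω ω' x x' h => by
        simp only [Prod.mk.injEq] at h
        exact ds1 ω ω' x x' (Prod.ext h.2 h.1))
    have g2 : MI q L th1 b ≤ d := by
      rw [MI_symm hq0]
      exact a11
    have g3 : MI q n1 th1 (fun ω => (b ω, (y1 ω, s1 ω))) =
        MI q n1 th1 (fun ω => (y1 ω, (s1 ω, b ω))) := by
      refine MI_congr hq0 ?_ ?_ ?_ ?_ ?_ ?_ <;>
      · intro ω ω' _ _ h
        simp only [Prod.mk.injEq] at h ⊢
        tauto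
    have g4 : MI q n1 th1 (fun ω => (y1 ω, (s1 ω, b ω))) ≤
        MI q (fun ω => (L ω, (y1 ω, n1 ω))) th1 (fun ω => (s1 ω, b ω)) := by
      refine MI_data hq0 ?_ ?_ <;>
      · intro ω ω' _ _ h
        simp only [Prod.mk.injEq] at h
        tauto
    have g5 := MI_chain_left hq0 L (fun ω => (y1 ω, n1 ω)) th1 (fun ω => (s1 ω, b ω))
    have g6 : MI q (fun ω => (y1 ω, n1 ω)) th1 (fun ω => (L ω, (s1 ω, b ω))) ≤ e := by
      refine (MI_le_CH hq0 _ _ _).trans (le_trans (CH_mono_cond hq0 ?_) c1)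
      intro ω ω' _ _ h
      simp only [Prod.mk.injEq] at h ⊢
      tauto
    linarith
  have f8 : MI q n1 v (fun ω => (th1 ω, (b ω, (y1 ω, s1 ω)))) ≤ d := by
    refine le_trans (le_of_eq ?_) a2
    refine MI_congr hq0 ?_ ?_ ?_ ?_ ?_ ?_
    · intro ω ω' _ _ h
      simp only [Prod.mk.injEq] at h ⊢
      tauto
    · intro ω ω' x x' h
      simp only [Prod.mk.injEq] at h ⊢
      have k1 := ds1 ω ω' x x' (Prod.ext h.2.2.1 h.2.2.2)
      tauto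
    · intro ω ω' _ _ h
      simp only [Prod.mk.injEq] at h ⊢
      tauto
    · intro ω ω' x x' h
      simp only [Prod.mk.injEq] at h ⊢
      have k1 := ds1 ω ω' x x' (Prod.ext h.2.2.1 h.2.2.2)
      tauto
    · intro ω ω' _ _ h
      simp only [Prod.mk.injEq] at h ⊢
      tauto
    · intro ω ω' x x' h
      simp only [Prod.mk.injEq] at h ⊢
      have k1 := ds1 ω ω' x x' (Prod.ext h.2.1 h.2.2)
      tauto
  have f9 : MI q n1 th0 (fun ω => (v ω, (th1 ω, (b ω, (y1 ω, s1 ω))))) ≤ d := by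
    have g1 : MI q n1 th0 (fun ω => (v ω, (th1 ω, (b ω, (y1 ω, s1 ω))))) =
        MI q n1 th0 (fun ω => ((v ω, (th1 ω, (y1 ω, s1 ω))), b ω)) := by
      refine MI_congr hq0 ?_ ?_ ?_ ?_ ?_ ?_ <;>
      · intro ω ω' _ _ h
        simp only [Prod.mk.injEq] at h ⊢
        tauto
    have g2 : MI q n1 th0 (fun ω => ((v ω, (th1 ω, (y1 ω, s1 ω))), b ω)) ≤
        MI q (fun ω => (L ω, (th1 ω, (y1 ω, n1 ω)))) th0 b := by
      refine MI_data hq0 ?_ ?_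
      · intro ω ω' x x' h
        simp only [Prod.mk.injEq] at h
        exact h.1.2.2.2
      · intro ω ω' x x' h
        simp only [Prod.mk.injEq] at h ⊢
        exact ⟨dLv ω ω' x x' h.1.1, h.1.2.1, h.1.2.2.1, ds1 ω ω' x x' (Prod.ext h.2 h.1.2.1)⟩
    have g6 : MI q L th0 b ≤ d := by
      rw [MI_symm hq0]
      exact a10
    have g7 : MI q (fun ω => (th1 ω, (y1 ω, n1 ω))) th0 L = 0 := by
      rw [MI_symm hq0]
      exact ci1
    have g8 := tim_ci hq0 dLb g7 g6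
    linarith
  linarith

/-! ### The datum given by a body which is a function of other times -/

/-- Freshness. -/
theorem tim_frc {τ : Type} {T : Ω → τ} (hq : ∀ ω, 0 ≤ q ω) (dLb : Det q L b)
    (ds0 : Det q (fun ω => (b ω, th0 ω)) s0)
    (ci : MI q (fun ω => (th0 ω, (y0 ω, n0 ω))) T L = 0) {g : ℝ} (a1 : MI q L T b ≤ g)
    (a30 : MI q n0 b (fun ω => (y0 ω, s0 ω)) ≤ δ) :
    MI q n0 (fun ω => (b ω, T ω)) (fun ω => (y0 ω, s0 ω)) ≤ δ + g := by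
  have f1 := MI_chain hq n0 b T (fun ω => (y0 ω, s0 ω))
  have f2 : MI q n0 T (fun ω => (b ω, (y0 ω, s0 ω))) ≤
      MI q (fun ω => (L ω, (th0 ω, (y0 ω, n0 ω)))) T b := by
    have g1 : MI q n0 T (fun ω => (b ω, (y0 ω, s0 ω))) =
        MI q n0 T (fun ω => ((y0 ω, s0 ω), b ω)) := by
      refine MI_congr hq ?_ ?_ ?_ ?_ ?_ ?_ <;>
      · intro ω ω' _ _ h
        simp only [Prod.mk.injEq] at h ⊢
        tauto
    rw [g1]
    refine MI_data hq ?_ ?_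
    · intro ω ω' _ _ h
      simp only [Prod.mk.injEq] at h ⊢
      tauto
    · intro ω ω' x x' h
      simp only [Prod.mk.injEq] at h ⊢
      exact ⟨h.1.2.2.1, ds0 ω ω' x x' (Prod.ext h.2 h.1.2.1)⟩
  have f3 := tim_ci hq dLb ci a1
  linarith

end abs

end Pool.POT
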